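import Pool.Agent.Q148.SM.Stm

set_option autoImplicit false

/-! S_LEML of project SM (helper148). -/

namespace Pool.Agent.Q125.SM

open Finset Pool.Agent.Q148.SM

/-- numerical bound for the middle part -/
theorem num1 (N : ℕ) (hN : 1000 ≤ N) :
    20 * ((N : ℝ) + 1) * (N : ℝ) ^ 2 * (24 / 25) ^ (N - 2) ≤ 1 := by
  induction N, hN using Nat.le_induction with
  | base =>
    have a1 : ((24 : ℝ) / 25) ^ 998 ≤ (9 / 20) ^ 49 := by
      calc ((24 : ℝ) / 25) ^ 998 ≤ (24 / 25) ^ 980 :=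
            pow_le_pow_of_le_one (by norm_num) (by norm_num) (by norm_num)
        _ = ((24 / 25) ^ 20) ^ 49 := by rw [← pow_mul]
        _ ≤ (9 / 20) ^ 49 := pow_le_pow_left₀ (by positivity) (by norm_num) 49
    have a2 : (20020000000 : ℝ) * (9 / 20) ^ 49 ≤ 1 := by norm_num
    have a3 : 20 * (((1000 : ℕ) : ℝ) + 1) * ((1000 : ℕ) : ℝ) ^ 2 = 20020000000 := by norm_num
    rw [a3]
    have a4 : (1000 - 2 : ℕ) = 998 := by norm_num
    rw [a4]
    exact (mul_le_mul_of_nonneg_left a1 (by norm_num)).trans a2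
  | succ n hn ih =>
    have e : n + 1 - 2 = (n - 2) + 1 := by omega
    rw [e, pow_succ]
    have hn' : (1000 : ℝ) ≤ n := by exact_mod_cast hn
    have hp : (0 : ℝ) ≤ (24 / 25) ^ (n - 2) := by positivity
    push_cast
    have key : 20 * ((n : ℝ) + 1 + 1) * ((n : ℝ) + 1) ^ 2 * (24 / 25) ≤
        20 * ((n : ℝ) + 1) * (n : ℝ) ^ 2 := by
      have h1 : ((n : ℝ) + 1 + 1) * ((n : ℝ) + 1) * (24 / 25) ≤ (n : ℝ) ^ 2 := by nlinarith
      nlinarith
    calc 20 * ((n : ℝ) + 1 + 1) * ((n : ℝ) + 1) ^ 2 * ((24 / 25) ^ (n - 2) * (24 / 25))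
        = (20 * ((n : ℝ) + 1 + 1) * ((n : ℝ) + 1) ^ 2 * (24 / 25)) * (24 / 25) ^ (n - 2) := by ring
      _ ≤ (20 * ((n : ℝ) + 1) * (n : ℝ) ^ 2) * (24 / 25) ^ (n - 2) :=
          mul_le_mul_of_nonneg_right key hp
      _ ≤ 1 := ih

/-- numerical bound for the last part -/
theorem num2 (N : ℕ) (hN : 1000 ≤ N) : 40 * ((N : ℝ) + 1) * (1 / 9) ^ N ≤ 1 := by
  induction N, hN using Nat.le_induction with
  | base =>
    have a1 : ((1 : ℝ) / 9) ^ 1000 ≤ (1 / 9) ^ 10 :=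
      pow_le_pow_of_le_one (by norm_num) (by norm_num) (by norm_num)
    have a2 : (40040 : ℝ) * (1 / 9) ^ 10 ≤ 1 := by norm_num
    have a3 : 40 * (((1000 : ℕ) : ℝ) + 1) = 40040 := by norm_num
    rw [a3]
    exact (mul_le_mul_of_nonneg_left a1 (by norm_num)).trans a2
  | succ n hn ih =>
    rw [pow_succ]
    have hn' : (1000 : ℝ) ≤ n := by exact_mod_cast hn
    have hp : (0 : ℝ) ≤ (1 / 9) ^ n := by positivity
    push_cast
    have key : 40 * ((n : ℝ) + 1 + 1) * (1 / 9) ≤ 40 * ((n : ℝ) + 1) := by nlinarith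
    calc 40 * ((n : ℝ) + 1 + 1) * ((1 / 9) ^ n * (1 / 9))
        = (40 * ((n : ℝ) + 1 + 1) * (1 / 9)) * (1 / 9) ^ n := by ring
      _ ≤ (40 * ((n : ℝ) + 1)) * (1 / 9) ^ n := mul_le_mul_of_nonneg_right key hp
      _ ≤ 1 := ih

/-- AM-GM in the form needed -/
theorem prod_le_pow {N : ℕ} (a : Fin N → ℝ) (M : ℝ) (hM : 0 < M) (ha : ∀ k, 0 ≤ a k)
    (hs : ∑ k, a k ≤ N * M) : ∏ k, a k ≤ M ^ N := by
  have h1 : ∀ k, a k ≤ M * Real.exp (a k / M - 1) := by
    intro k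
    have := Real.add_one_le_exp (a k / M - 1)
    have h2 : a k / M ≤ Real.exp (a k / M - 1) := by linarith
    calc a k = M * (a k / M) := by field_simp
      _ ≤ M * Real.exp (a k / M - 1) := mul_le_mul_of_nonneg_left h2 hM.le
  calc ∏ k, a k ≤ ∏ k, (M * Real.exp (a k / M - 1)) :=
        Finset.prod_le_prod (fun k _ => ha k) (fun k _ => h1 k)
    _ = M ^ N * Real.exp (∑ k, (a k / M - 1)) := by
        rw [Finset.prod_mul_distrib, Real.exp_sum]; simp
    _ ≤ M ^ N * 1 := by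
        apply mul_le_mul_of_nonneg_left _ (by positivity)
        rw [Real.exp_le_one_iff, Finset.sum_sub_distrib, ← Finset.sum_div]
        simp only [Finset.sum_const, Finset.card_univ, Fintype.card_fin, nsmul_eq_mul, mul_one]
        rw [sub_nonpos, div_le_iff₀ hM]; exact hs
    _ = M ^ N := mul_one _

/-- the boundary function -/
theorem bder (c K : ℝ) (hc : c ≠ 0) (x : ℝ) :
    HasDerivAt (fun x : ℝ => K * (2 / c ^ 3 - Real.exp (-(c * x)) *
      (x ^ 2 / c + 2 * x / c ^ 2 + 2 / c ^ 3))) (K * x ^ 2 * Real.exp (-(c * x))) x := by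
  have h1 : HasDerivAt (fun x : ℝ => Real.exp (-(c * x))) (Real.exp (-(c * x)) * (-(c * 1))) x :=
    (((hasDerivAt_id x).const_mul c).neg).exp
  have h2 : HasDerivAt (fun x : ℝ => x ^ 2 / c + 2 * x / c ^ 2 + 2 / c ^ 3)
      (2 * x / c + 2 / c ^ 2) x := by
    have a1 : HasDerivAt (fun x : ℝ => x ^ 2 / c) (2 * x / c) x := by
      have := (hasDerivAt_pow 2 x).div_const c
      simpa using this
    have a2 : HasDerivAt (fun x : ℝ => 2 * x / c ^ 2) (2 / c ^ 2) x := by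
      have := ((hasDerivAt_id x).const_mul 2).div_const (c ^ 2)
      simpa using this
    have := (a1.add a2).add_const (2 / c ^ 3)
    exact this
  have h3 := ((h1.mul h2).const_sub (2 / c ^ 3)).const_mul K
  refine h3.congr_deriv ?_
  field_simp
  ring

theorem leml (hA : S_LEMA) (hB : S_LEMB) : S_LEML := by
  intro N η Q J hN h0 h3 hh hQ hQ1 hJ
  have hNr : (1000 : ℝ) ≤ N := by exact_mod_cast hN
  have hN0 : (0 : ℝ) < N := by linarith
  have hQ0 : 0 ≤ Q := by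
    have : 0 ≤ ∑ k, ‖η k‖ ^ 2 := Finset.sum_nonneg (fun k _ => by positivity)
    rw [hQ] at this
    by_contra hneg
    push Not at hneg
    nlinarith
  -- the function `G`
  set G : ℂ → ℂ := fun z => J z + (1 - z) ^ (N + 1) / ((N : ℂ) + 1) with hG
  have hN1 : ((N : ℂ) + 1) ≠ 0 := by
    have : ((N + 1 : ℕ) : ℂ) ≠ 0 := Nat.cast_ne_zero.mpr (Nat.succ_ne_zero N)
    simpa using this
  have hGd : ∀ z : ℂ, HasDerivAt G (D (fun k => 1 + η k) z - (1 - z) ^ N) z := by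
    intro z
    have h1 : HasDerivAt (fun z : ℂ => (1 - z) ^ (N + 1) / ((N : ℂ) + 1))
        (-(1 - z) ^ N) z := by
      have a1 : HasDerivAt (fun z : ℂ => 1 - z) (-1) z := by
        simpa using (hasDerivAt_id z).const_sub 1
      have a2 := (a1.pow (N + 1)).div_const ((N : ℂ) + 1)
      refine a2.congr_deriv ?_
      push_cast
      field_simp
    have := (hJ.der z).add h1
    exact this.congr_deriv (by ring)
  have hgd : ∀ x : ℝ, HasDerivAt (fun y : ℝ => G y) (D (fun k => 1 + η k) x - (1 - (x : ℂ)) ^ N) x :=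
    fun x => (hGd x).comp_ofReal
  -- part 1
  have hc : (9 / 10 * (N : ℝ)) ≠ 0 := by positivity
  have p1 : ‖G (1 / 8 : ℝ) - G (0 : ℝ)‖ ≤ 4 / 3 * N * Q * (2 / (9 / 10 * (N : ℝ)) ^ 3) := by
    have hb := image_norm_le_of_norm_deriv_right_le_deriv_boundary
      (f := fun x : ℝ => G x - G (0 : ℝ)) (f' := fun x : ℝ => D (fun k => 1 + η k) x - (1 - (x : ℂ)) ^ N)
      (a := 0) (b := 1 / 8)
      (B := fun x : ℝ => (4 / 3 * N * Q) * (2 / (9 / 10 * (N : ℝ)) ^ 3 -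
        Real.exp (-((9 / 10 * (N : ℝ)) * x)) *
        (x ^ 2 / (9 / 10 * (N : ℝ)) + 2 * x / (9 / 10 * (N : ℝ)) ^ 2 + 2 / (9 / 10 * (N : ℝ)) ^ 3)))
      (B' := fun x : ℝ => (4 / 3 * N * Q) * x ^ 2 * Real.exp (-((9 / 10 * (N : ℝ)) * x)))
      (fun x _ => ((hgd x).sub_const _).continuousAt.continuousWithinAt)
      (fun x _ => ((hgd x).sub_const _).hasDerivWithinAt)
      (by simp) (fun x => bder _ _ hc x)
      (by
        intro x hx
        have := hA N η Q (by omega) h0 h3 hQ hQ1 x hx.1 hx.2.le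
        simpa using this)
    have h := hb (x := 1 / 8) ⟨by norm_num, le_refl _⟩
    refine h.trans ?_
    have hK : 0 ≤ 4 / 3 * (N : ℝ) * Q := by positivity
    apply mul_le_mul_of_nonneg_left _ hK
    have : 0 ≤ Real.exp (-((9 / 10 * (N : ℝ)) * (1 / 8))) *
        ((1 / 8) ^ 2 / (9 / 10 * (N : ℝ)) + 2 * (1 / 8) / (9 / 10 * (N : ℝ)) ^ 2 +
          2 / (9 / 10 * (N : ℝ)) ^ 3) := by positivity
    linarith
  -- part 2
  have p2 : ‖G (1 : ℝ) - G (1 / 8 : ℝ)‖ ≤ (N : ℝ) ^ 2 * Q * (24 / 25) ^ (N - 2) := by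
    have h := norm_image_sub_le_of_norm_deriv_le_segment' (f := fun x : ℝ => G x)
      (f' := fun x : ℝ => D (fun k => 1 + η k) x - (1 - (x : ℂ)) ^ N) (a := 1 / 8) (b := 1)
      (C := (N : ℝ) ^ 2 * Q * (24 / 25) ^ (N - 2))
      (fun x _ => (hgd x).hasDerivWithinAt)
      (fun x hx => by
        have := hB N η Q hN h0 h3 hQ hQ1 x hx.1 hx.2.le
        simpa using this) 1 ⟨by norm_num, le_refl _⟩
    refine h.trans ?_
    have hK : 0 ≤ (N : ℝ) ^ 2 * Q * (24 / 25) ^ (N - 2) := by positivity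
    nlinarith
  -- part 3
  set zc : ℂ := (∑ k, 1 / (1 + η k)) / N with hzc
  have hne : ∀ k, (1 : ℂ) + η k ≠ 0 := by
    intro k hk
    have := hh k
    rw [hk] at this
    norm_num at this
  have hNc : (N : ℂ) ≠ 0 := by
    have : N ≠ 0 := by omega
    exact_mod_cast this
  have hz1 : zc - 1 = (∑ k, η k ^ 2 / (1 + η k)) / N := by
    rw [hzc, eq_div_iff hNc, sub_mul, div_mul_cancel₀ _ hNc, one_mul]
    have e1 : ∀ k, 1 / (1 + η k) = 1 - η k + η k ^ 2 / (1 + η k) := by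
      intro k
      have := hne k
      field_simp
      ring
    rw [Finset.sum_congr rfl (fun k _ => e1 k), Finset.sum_add_distrib, Finset.sum_sub_distrib, h0]
    simp
  have hz2 : ‖zc - 1‖ ≤ 2 * Q := by
    rw [hz1, norm_div, Complex.norm_natCast, div_le_iff₀ hN0]
    calc ‖∑ k, η k ^ 2 / (1 + η k)‖ ≤ ∑ k, ‖η k ^ 2 / (1 + η k)‖ := norm_sum_le _ _
      _ ≤ ∑ k, 2 * ‖η k‖ ^ 2 := by
          apply Finset.sum_le_sum
          intro k _
          rw [norm_div, norm_pow, div_le_iff₀ (by linarith [hh k])]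
          nlinarith [hh k, sq_nonneg ‖η k‖]
      _ = 2 * Q * N := by rw [← Finset.mul_sum, hQ]; ring
  have hs : ∑ k, ‖η k‖ ≤ 817 / 10000 * N := by
    have h := sq_sum_le_card_mul_sum_sq (s := (univ : Finset (Fin N))) (f := fun k => ‖η k‖)
    rw [hQ] at h
    simp only [Finset.card_univ, Fintype.card_fin] at h
    have hn : 0 ≤ ∑ k, ‖η k‖ := Finset.sum_nonneg (fun k _ => norm_nonneg _)
    have h' : (∑ k, ‖η k‖) ^ 2 ≤ (817 / 10000 * (N : ℝ)) ^ 2 := by nlinarith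
    exact (sq_le_sq₀ hn (by positivity)).mp h'
  have hbd : ∀ z ∈ segment ℝ (1 : ℂ) zc, ‖D (fun k => 1 + η k) z‖ ≤ (1 / 9) ^ N := by
    intro z hz
    have hz' : ‖z - 1‖ ≤ 2 * Q := by
      have h := (convex_closedBall (1 : ℂ) (2 * Q)).segment_subset
        (Metric.mem_closedBall_self (by positivity))
        (by rw [Metric.mem_closedBall, dist_eq_norm]; exact hz2) hz
      rwa [Metric.mem_closedBall, dist_eq_norm] at h
    have hz'' : ‖z‖ ≤ 1 + 2 * Q := by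
      calc ‖z‖ = ‖1 + (z - 1)‖ := by congr 1; ring
        _ ≤ ‖(1 : ℂ)‖ + ‖z - 1‖ := norm_add_le _ _
        _ ≤ 1 + 2 * Q := by rw [norm_one]; linarith
    unfold D
    rw [norm_prod]
    calc ∏ k, ‖1 - z * (1 + η k)‖ ≤ ∏ k, (2 * Q + (1 + 2 * Q) * ‖η k‖) := by
          apply Finset.prod_le_prod (fun k _ => norm_nonneg _)
          intro k _
          calc ‖1 - z * (1 + η k)‖ = ‖-(z - 1) - z * η k‖ := by congr 1; ring
            _ ≤ ‖-(z - 1)‖ + ‖z * η k‖ := norm_sub_le _ _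
            _ ≤ 2 * Q + (1 + 2 * Q) * ‖η k‖ := by
                rw [norm_neg, norm_mul]
                have := mul_le_mul_of_nonneg_right hz'' (norm_nonneg (η k))
                linarith
      _ ≤ (1 / 9) ^ N := by
          apply prod_le_pow _ _ (by norm_num) (fun k => by positivity)
          rw [Finset.sum_add_distrib, Finset.sum_const, ← Finset.mul_sum]
          simp only [Finset.card_univ, Fintype.card_fin, nsmul_eq_mul]
          have hn : 0 ≤ ∑ k, ‖η k‖ := Finset.sum_nonneg (fun k _ => norm_nonneg _)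
          have h1 : (1 + 2 * Q) * ∑ k, ‖η k‖ ≤ (1 + 2 / 150) * (817 / 10000 * N) := by
            apply mul_le_mul (by linarith) hs hn (by norm_num)
          have h2 : (N : ℝ) * (2 * Q) ≤ N * (2 / 150) := by
            apply mul_le_mul_of_nonneg_left _ hN0.le; linarith
          linarith
  have p3 : ‖J zc - J 1‖ ≤ (1 / 9) ^ N * (2 * Q) := by
    have h := (convex_segment (1 : ℂ) zc).norm_image_sub_le_of_norm_hasDerivWithin_le
      (f := J) (f' := fun z => D (fun k => 1 + η k) z) (C := (1 / 9) ^ N)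
      (fun z _ => (hJ.der z).hasDerivWithinAt) hbd (left_mem_segment ℝ _ _)
      (right_mem_segment ℝ _ _)
    refine h.trans ?_
    exact mul_le_mul_of_nonneg_left hz2 (by positivity)
  -- conclusion
  have hG1 : G (1 : ℝ) = J 1 := by
    simp [hG]
  have hG0 : G (0 : ℝ) = 1 / ((N : ℂ) + 1) := by
    simp [hG, hJ.zero]
  have hdec : ((N : ℂ) + 1) * J zc - 1 = ((N : ℂ) + 1) * ((G (1 / 8 : ℝ) - G (0 : ℝ)) +
      (G (1 : ℝ) - G (1 / 8 : ℝ)) + (J zc - J 1)) := by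
    rw [hG1, hG0]
    field_simp
    ring
  rw [hdec, norm_mul]
  have hnn : ‖(N : ℂ) + 1‖ = N + 1 := by
    have : ((N : ℂ) + 1) = ((N + 1 : ℕ) : ℂ) := by push_cast; ring
    rw [this, Complex.norm_natCast]; push_cast; ring
  rw [hnn]
  have hsum : ‖(G (1 / 8 : ℝ) - G (0 : ℝ)) + (G (1 : ℝ) - G (1 / 8 : ℝ)) + (J zc - J 1)‖ ≤
      4 / 3 * N * Q * (2 / (9 / 10 * (N : ℝ)) ^ 3) + (N : ℝ) ^ 2 * Q * (24 / 25) ^ (N - 2) +
        (1 / 9) ^ N * (2 * Q) := by
    refine (norm_add₃_le).trans ?_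
    linarith
  have q1 : ((N : ℝ) + 1) * (4 / 3 * N * Q * (2 / (9 / 10 * (N : ℝ)) ^ 3)) ≤ Q / 20 := by
    have : ((N : ℝ) + 1) * (4 / 3 * N * (2 / (9 / 10 * (N : ℝ)) ^ 3)) ≤ 1 / 20 := by
      have e : ((N : ℝ) + 1) * (4 / 3 * N * (2 / (9 / 10 * (N : ℝ)) ^ 3)) =
          (8000 / 2187) * (N + 1) / (N : ℝ) ^ 2 := by
        field_simp
        ring
      rw [e, div_le_iff₀ (by positivity)]
      nlinarith
    calc ((N : ℝ) + 1) * (4 / 3 * N * Q * (2 / (9 / 10 * (N : ℝ)) ^ 3))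
        = ((N : ℝ) + 1) * (4 / 3 * N * (2 / (9 / 10 * (N : ℝ)) ^ 3)) * Q := by ring
      _ ≤ 1 / 20 * Q := mul_le_mul_of_nonneg_right this hQ0
      _ = Q / 20 := by ring
  have q2 : ((N : ℝ) + 1) * ((N : ℝ) ^ 2 * Q * (24 / 25) ^ (N - 2)) ≤ Q / 20 := by
    have := mul_le_mul_of_nonneg_right (num1 N hN) hQ0
    calc ((N : ℝ) + 1) * ((N : ℝ) ^ 2 * Q * (24 / 25) ^ (N - 2))
        = (20 * ((N : ℝ) + 1) * (N : ℝ) ^ 2 * (24 / 25) ^ (N - 2) * Q) / 20 := by ring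
      _ ≤ (1 * Q) / 20 := by linarith
      _ = Q / 20 := by ring
  have q3 : ((N : ℝ) + 1) * ((1 / 9) ^ N * (2 * Q)) ≤ Q / 20 := by
    have := mul_le_mul_of_nonneg_right (num2 N hN) hQ0
    calc ((N : ℝ) + 1) * ((1 / 9) ^ N * (2 * Q))
        = (40 * ((N : ℝ) + 1) * (1 / 9) ^ N * Q) / 20 := by ring
      _ ≤ (1 * Q) / 20 := by linarith
      _ = Q / 20 := by ring
  have hN1' : (0 : ℝ) ≤ (N : ℝ) + 1 := by positivity
  have := mul_le_mul_of_nonneg_left hsum hN1'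
  nlinarith

end Pool.Agent.Q125.SM
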